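import Pool.Agent.L0h38.GI.Stm

/-!
# Project GI, modules FAQ (quotients) and FAZ (no infinite cyclic quotient)
-/

set_option autoImplicit false

namespace Pool.Agent.L0h8.GI

open Pool.Agent.L0h38.GI

/-- **Module FAQ.** -/
theorem t_FAQ : S_FAQ := by
  intro X Y _ _ hX f hf V T _ hT hadj hinv
  let _ : MulAction X V := MulAction.compHom V f
  obtain ⟨v, hv⟩ := hX V T hT (fun g v w h => hadj (f g) v w h) (fun g v w h => hinv (f g) v w h)
  refine ⟨v, fun g => ?_⟩
  obtain ⟨x, rfl⟩ := hf g
  exact hv x

/-- the line -/
def line : SimpleGraph ℤ where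
  Adj n m := m = n + 1 ∨ n = m + 1
  symm := ⟨fun n m h => h.symm⟩
  loopless := ⟨fun n h => by rcases h with h | h <;> omega⟩

theorem line_adj (n m : ℤ) : line.Adj n m ↔ (m = n + 1 ∨ n = m + 1) := Iff.rfl

theorem line_reach0 (m : ℤ) : line.Reachable 0 m := by
  induction m using Int.induction_on with
  | zero => exact SimpleGraph.Reachable.refl _
  | succ i ih => exact ih.trans (SimpleGraph.Adj.reachable (by rw [line_adj]; left; rfl))
  | pred i ih => exact ih.trans (SimpleGraph.Adj.reachable (by rw [line_adj]; right; ring))

theorem line_bridge (n : ℤ) :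
    ¬ (line.deleteEdges {s(n, n + 1)}).Reachable n (n + 1) := by
  have key : ∀ a b : ℤ, (line.deleteEdges {s(n, n + 1)}).Reachable a b →
      a ≤ n → b ≤ n := by
    intro a b h
    obtain ⟨p⟩ := h
    induction p with
    | nil => exact id
    | cons hadj p ih =>
      rename_i u v w
      intro hu
      apply ih
      rw [SimpleGraph.deleteEdges_adj, line_adj] at hadj
      rcases hadj.1 with h1 | h1
      · by_contra hc
        have hun : u = n := by omega
        subst hun
        apply hadj.2
        rw [h1]
        exact Set.mem_singleton _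
      · omega
  intro h
  have := key _ _ h le_rfl
  omega

theorem line_tree : line.IsTree := by
  constructor
  · have : Nonempty ℤ := ⟨0⟩
    exact ⟨fun a b => (line_reach0 a).symm.trans (line_reach0 b)⟩
  · rw [SimpleGraph.isAcyclic_iff_forall_adj_isBridge]
    intro a b hab
    rw [SimpleGraph.isBridge_iff]
    rcases (line_adj a b).1 hab with h | h
    · subst h
      exact line_bridge a
    · subst h
      intro hr
      apply line_bridge b
      rw [Sym2.eq_swap]
      exact hr.symm

/-- **Module FAZ.** -/
theorem t_FAZ : S_FAZ := by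
  intro X _ hX f x
  let _ : MulAction X ℤ :=
    { smul := fun g n => n + Multiplicative.toAdd (f g)
      one_smul := fun n => by
        show n + Multiplicative.toAdd (f 1) = n
        rw [map_one, toAdd_one, add_zero]
      mul_smul := fun g h n => by
        show n + Multiplicative.toAdd (f (g * h)) =
          (n + Multiplicative.toAdd (f h)) + Multiplicative.toAdd (f g)
        rw [map_mul, toAdd_mul]; ring }
  have hsm : ∀ (g : X) (n : ℤ), g • n = n + Multiplicative.toAdd (f g) := fun _ _ => rfl
  obtain ⟨v, hv⟩ := hX ℤ line line_tree (by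
    intro g v w h
    rw [hsm, hsm, line_adj]
    rcases (line_adj v w).1 h with h | h
    · left; rw [h]; ring
    · right; rw [h]; ring) (by
    intro g v w h hc
    rw [hsm, hsm] at hc
    rcases (line_adj v w).1 h with h | h <;> omega)
  have h1 := hv x
  rw [hsm] at h1
  have h2 : Multiplicative.toAdd (f x) = 0 := by omega
  exact Multiplicative.toAdd.injective (by rw [h2]; rfl)

end Pool.Agent.L0h8.GI
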