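import Pool.Agent.L0h38.GI.Stm

/-!
# Project GI, module AMA: a graph product is an amalgam
-/

set_option autoImplicit false

namespace Pool.Agent.L0h8.GI

open Pool.Agent.L0h38.GI Pool.Agent.L0h29.AL

section abs

variable {X : Type} [Group X] (A : Bool → Subgroup X)

/-- lift a list of elements of the two subgroups -/
theorem exists_list (l : List (Bool × X)) (h : ∀ x ∈ l, x.2 ∈ A x.1) :
    ∃ L : List (Σ τ : Bool, (A τ : Subgroup X)), L.map (fun z => (z.1, (z.2 : X))) = l := by
  induction l with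
  | nil => exact ⟨[], rfl⟩
  | cons a l ih =>
    obtain ⟨L, hL⟩ := ih (fun x hx => h x (List.mem_cons_of_mem _ hx))
    exact ⟨⟨a.1, ⟨a.2, h a List.mem_cons_self⟩⟩ :: L, by rw [List.map_cons, hL]⟩

variable {C : Subgroup X} (φ : ∀ τ : Bool, (C : Subgroup X) →* (A τ : Subgroup X))
  (th : X →* Monoid.PushoutI φ)
  (hth : ∀ (τ : Bool) (a : X) (ha : a ∈ A τ), th a = Monoid.PushoutI.of (φ := φ) τ ⟨a, ha⟩)

include hth in
theorem th_prod (L : List (Σ τ : Bool, (A τ : Subgroup X))) :
    th ((L.map (fun z => (z.2 : X))).prod) =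
      (L.map (fun z => Monoid.PushoutI.of (φ := φ) z.1 z.2)).prod := by
  induction L with
  | nil => simp
  | cons a L ih =>
    rw [List.map_cons, List.prod_cons, map_mul, ih, List.map_cons, List.prod_cons,
      hth a.1 _ a.2.2]

include hth in
theorem abs_red (hφ : ∀ τ c, ((φ τ c : A τ) : X) = (c : X)) (l : List (Bool × X)) (hl : l ≠ [])
    (hmem : ∀ x ∈ l, x.2 ∈ A x.1 ∧ x.2 ∉ C) (hch : l.IsChain (fun x y => x.1 ≠ y.1)) :
    (l.map Prod.snd).prod ∉ C := by
  intro hin
  obtain ⟨L, hL⟩ := exists_list A l (fun x hx => (hmem x hx).1)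
  have hmemL : ∀ z ∈ L, (z.2 : X) ∉ C := by
    intro z hz
    have : (z.1, (z.2 : X)) ∈ l := by
      rw [← hL]
      exact List.mem_map_of_mem hz
    exact (hmem _ this).2
  have hchL : L.IsChain (fun x y => x.1 ≠ y.1) := by
    rw [← hL, List.isChain_map] at hch
    exact hch
  have hne : ∀ z ∈ L, z.2 ≠ 1 := by
    intro z hz h1
    apply hmemL z hz
    rw [h1]
    exact one_mem _
  let w : Monoid.CoprodI.Word (fun τ : Bool => (A τ : Subgroup X)) :=
    ⟨L, fun z hz => hne z hz, hchL⟩
  have hw : Monoid.PushoutI.Reduced φ w := by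
    intro z hz
    rintro ⟨c, hc⟩
    apply hmemL z hz
    rw [← hc, hφ]
    exact c.2
  have hprod : (l.map Prod.snd).prod = (L.map (fun z => (z.2 : X))).prod := by
    rw [← hL, List.map_map]
    rfl
  have h1 : Monoid.PushoutI.ofCoprodI (φ := φ) w.prod =
      (L.map (fun z => Monoid.PushoutI.of (φ := φ) z.1 z.2)).prod := by
    show Monoid.PushoutI.ofCoprodI (φ := φ)
      ((L.map (fun z => Monoid.CoprodI.of z.2)).prod) = _
    rw [map_list_prod, List.map_map]
    congr 1
  have h2 : Monoid.PushoutI.ofCoprodI (φ := φ) w.prod ∈ (Monoid.PushoutI.base φ).range := by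
    refine ⟨⟨_, hin⟩, ?_⟩
    have hA : (l.map Prod.snd).prod ∈ A true := by
      have := (φ true ⟨_, hin⟩).2
      rwa [hφ] at this
    have h5 : φ true ⟨_, hin⟩ = ⟨(l.map Prod.snd).prod, hA⟩ := Subtype.ext (hφ true ⟨_, hin⟩)
    rw [h1, ← th_prod A φ th hth L, ← Monoid.PushoutI.of_apply_eq_base φ true,
      ← hprod, hth true _ hA, h5]
  have hinj : ∀ τ, Function.Injective (φ τ) := by
    intro τ x y hxy
    apply Subtype.ext
    rw [← hφ τ x, ← hφ τ y, hxy]
  have h3 := hw.eq_empty_of_mem_range hinj h2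
  apply hl
  have h4 : L = [] := congrArg Monoid.CoprodI.Word.toList h3
  rw [← hL, h4]
  rfl

end abs

section ama

variable {V : Type} (Γ : SimpleGraph V) (G : V → Type) [∀ v, Group (G v)] (v : V)

/-- the two sets of vertices -/
def st (τ : Bool) : Set V := if τ then insert v (Γ.neighborSet v) else {v}ᶜ

/-- the two subgroups -/
def AA (τ : Bool) : Subgroup (GrP Γ G) := P Γ G (st Γ v τ)

theorem nb_sub (τ : Bool) : Γ.neighborSet v ⊆ st Γ v τ := by
  intro w hw
  cases τ
  · show w ∈ ({v}ᶜ : Set V)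
    rw [Set.mem_compl_singleton_iff]
    exact ((Γ.mem_neighborSet v w).1 hw).ne'
  · show w ∈ insert v (Γ.neighborSet v)
    exact Set.mem_insert_of_mem _ hw

theorem C_le (τ : Bool) : P Γ G (Γ.neighborSet v) ≤ AA Γ G v τ := P_mono (nb_sub Γ v τ)

/-- the inclusions of the amalgam -/
def ph (τ : Bool) : (P Γ G (Γ.neighborSet v) : Subgroup (GrP Γ G)) →*
    (AA Γ G v τ : Subgroup (GrP Γ G)) :=
  Subgroup.inclusion (C_le Γ G v τ)

theorem ph_inj (τ : Bool) : Function.Injective (ph Γ G v τ) := Subgroup.inclusion_injective _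

/-- vertex groups into the subgroups -/
def jn (τ : Bool) (w : V) (hw : w ∈ st Γ v τ) : G w →* (AA Γ G v τ : Subgroup (GrP Γ G)) :=
  (inj Γ G w).codRestrict _ (fun x => inj_mem hw x)

theorem v_true : v ∈ st Γ v true := Set.mem_insert _ _

theorem ne_false {w : V} (h : w ≠ v) : w ∈ st Γ v false := by
  show w ∈ ({v}ᶜ : Set V)
  rwa [Set.mem_compl_singleton_iff]

open Classical in
/-- the images of the vertex groups -/
noncomputable def th0 (w : V) : G w →* Monoid.PushoutI (ph Γ G v) :=
  if hw : w = v then (Monoid.PushoutI.of (φ := ph Γ G v) true).comp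
    (jn Γ G v true w (by rw [hw]; exact v_true Γ v))
  else (Monoid.PushoutI.of (φ := ph Γ G v) false).comp (jn Γ G v false w (ne_false Γ v hw))

theorem th0_false {w : V} (hw : w ∈ st Γ v false) :
    th0 Γ G v w = (Monoid.PushoutI.of (φ := ph Γ G v) false).comp (jn Γ G v false w hw) := by
  have h : w ≠ v := by
    have : w ∈ ({v}ᶜ : Set V) := hw
    rwa [Set.mem_compl_singleton_iff] at this
  exact dif_neg h

theorem th0_true {w : V} (hw : w ∈ st Γ v true) :
    th0 Γ G v w = (Monoid.PushoutI.of (φ := ph Γ G v) true).comp (jn Γ G v true w hw) := by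
  by_cases h : w = v
  · exact dif_pos h
  · have hN : w ∈ Γ.neighborSet v := by
      rcases Set.mem_insert_iff.1 (show w ∈ insert v (Γ.neighborSet v) from hw) with h1 | h1
      · exact absurd h1 h
      · exact h1
    rw [th0_false Γ G v (ne_false Γ v h)]
    ext x
    have h1 := Monoid.PushoutI.of_apply_eq_base (ph Γ G v) true
      ⟨inj Γ G w x, inj_mem hN x⟩
    have h2 := Monoid.PushoutI.of_apply_eq_base (ph Γ G v) false
      ⟨inj Γ G w x, inj_mem hN x⟩
    exact h2.trans h1.symm

/-- the homomorphism to the amalgam -/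
noncomputable def th : GrP Γ G →* Monoid.PushoutI (ph Γ G v) :=
  lift (th0 Γ G v) (by
    intro u w huw x y
    by_cases h1 : u ∈ st Γ v false ∧ w ∈ st Γ v false
    · rw [th0_false Γ G v h1.1, th0_false Γ G v h1.2]
      have : Commute (jn Γ G v false u h1.1 x) (jn Γ G v false w h1.2 y) :=
        Subtype.ext (inj_comm huw x y)
      exact this.map (Monoid.PushoutI.of (φ := ph Γ G v) false)
    · have h2 : u ∈ st Γ v true ∧ w ∈ st Γ v true := by
        by_cases hu : u = v
        · subst hu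
          exact ⟨v_true Γ u, Set.mem_insert_of_mem _ huw⟩
        · by_cases hw : w = v
          · subst hw
            exact ⟨Set.mem_insert_of_mem _ huw.symm, v_true Γ w⟩
          · exact absurd ⟨ne_false Γ v hu, ne_false Γ v hw⟩ h1
      rw [th0_true Γ G v h2.1, th0_true Γ G v h2.2]
      have : Commute (jn Γ G v true u h2.1 x) (jn Γ G v true w h2.2 y) :=
        Subtype.ext (inj_comm huw x y)
      exact this.map (Monoid.PushoutI.of (φ := ph Γ G v) true))

theorem th_mem (τ : Bool) (a : GrP Γ G) (ha : a ∈ AA Γ G v τ) :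
    th Γ G v a = Monoid.PushoutI.of (φ := ph Γ G v) τ ⟨a, ha⟩ := by
  -- the subgroup of the elements on which both homs agree
  have key : AA Γ G v τ ≤ Subgroup.map (AA Γ G v τ).subtype
      (MonoidHom.eqLocus ((th Γ G v).comp (AA Γ G v τ).subtype)
        (Monoid.PushoutI.of (φ := ph Γ G v) τ)) := by
    refine P_le.2 ?_
    intro w hw x
    refine ⟨⟨inj Γ G w x, inj_mem hw x⟩, ?_, rfl⟩
    show th Γ G v (inj Γ G w x) = _
    unfold th
    rw [lift_inj]
    cases τ
    · rw [th0_false Γ G v hw]; rfl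
    · rw [th0_true Γ G v hw]; rfl
  obtain ⟨y, hy, hya⟩ := key ha
  have hy' : y = ⟨a, ha⟩ := Subtype.ext hya
  rw [hy'] at hy
  exact hy

theorem ph_val (τ : Bool) (c : P Γ G (Γ.neighborSet v)) :
    ((ph Γ G v τ c : AA Γ G v τ) : GrP Γ G) = (c : GrP Γ G) := by
  unfold ph
  exact Subgroup.coe_inclusion (C_le Γ G v τ) c

theorem red (l : List (Bool × GrP Γ G)) (hl : l ≠ [])
    (hmem : ∀ x ∈ l, x.2 ∈ AA Γ G v x.1 ∧ x.2 ∉ P Γ G (Γ.neighborSet v))
    (hch : l.IsChain (fun x y => x.1 ≠ y.1)) :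
    (l.map Prod.snd).prod ∉ P Γ G (Γ.neighborSet v) :=
  abs_red (AA Γ G v) (ph Γ G v) (th Γ G v) (th_mem Γ G v) (ph_val Γ G v) l hl hmem hch

theorem gen : AA Γ G v true ⊔ AA Γ G v false = ⊤ := by
  have h : P Γ G Set.univ ≤ AA Γ G v true ⊔ AA Γ G v false := by
    refine P_le.2 ?_
    intro w _ x
    by_cases h : w = v
    · exact Subgroup.mem_sup_left (inj_mem (by rw [h]; exact v_true Γ v) x)
    · exact Subgroup.mem_sup_right (inj_mem (ne_false Γ v h) x)
  exact top_le_iff.1 (P_top.symm.le.trans h)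

theorem st_true : st Γ v true = insert v (Γ.neighborSet v) := rfl

theorem st_false : st Γ v false = {v}ᶜ := by
  unfold st
  rw [if_neg (by decide)]

/-- the amalgam -/
def am : Amal (GrP Γ G) where
  A := AA Γ G v
  C := P Γ G (Γ.neighborSet v)
  le := C_le Γ G v
  red := red Γ G v
  gen := gen Γ G v

theorem am_true : (am Γ G v).A true = P Γ G (insert v (Γ.neighborSet v)) := by
  show P Γ G (st Γ v true) = _
  rw [st_true]

theorem am_false : (am Γ G v).A false = P Γ G {v}ᶜ := by
  show P Γ G (st Γ v false) = _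
  rw [st_false]

end ama

/-- **Module AMA.** -/
theorem t_AMA : S_AMA := by
  intro V Γ G _ v
  exact ⟨am Γ G v, am_true Γ G v, am_false Γ G v, rfl⟩

end Pool.Agent.L0h8.GI
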